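import Mathlib

/-!
# Surround counts of finite sets of prototiles (MP_ae4adf): definitions

The Euclidean plane is `ℂ`.
-/

set_option autoImplicit false

namespace Pool.Agent.H159.SC

open Set Complex

/-! ## The notions of the problem -/

/-- A closed topological disk of the plane: a set homeomorphic to the closed unit disk. -/
def IsDisk (K : Set ℂ) : Prop := Nonempty (K ≃ₜ Metric.closedBall (0 : ℂ) 1)

/-- A tile from `S`: the image of a member of `S` under an isometry of the plane. -/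
def IsTile (S : Set (Set ℂ)) (T : Set ℂ) : Prop := ∃ P ∈ S, ∃ g : ℂ ≃ᵢ ℂ, T = g '' P

/-- A patch of tiles from `S`: a finite collection of tiles from `S` with pairwise disjoint
interiors whose union is a closed topological disk. -/
structure IsPatch (S : Set (Set ℂ)) (A : Finset (Set ℂ)) : Prop where
  tiles : ∀ T ∈ A, IsTile S T
  disj : ∀ T ∈ A, ∀ T' ∈ A, T ≠ T' → Disjoint (interior T) (interior T')
  disk : IsDisk (⋃ T ∈ A, T)

/-- The collection `B` surrounds the collection `A`. -/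
def Surrounds (B A : Finset (Set ℂ)) : Prop :=
  A ⊆ B ∧ (⋃ T ∈ A, T) ⊆ interior (⋃ T ∈ B, T)

/-- The patch `A` can be surrounded `r` times: there are patches `A = A 0, A 1, ..., A r` each of
which surrounds the previous one. -/
def CanBeSurrounded (S : Set (Set ℂ)) (A : Finset (Set ℂ)) (r : ℕ) : Prop :=
  ∃ Q : ℕ → Finset (Set ℂ), Q 0 = A ∧ (∀ i ≤ r, IsPatch S (Q i)) ∧
    ∀ i < r, Surrounds (Q (i + 1)) (Q i)

/-- `S` admits a tiling of the plane: some countable family of tiles from `S` with pairwise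
disjoint interiors covers the plane. -/
def AdmitsTiling (S : Set (Set ℂ)) : Prop :=
  ∃ 𝒯 : Set (Set ℂ), 𝒯.Countable ∧ (∀ T ∈ 𝒯, IsTile S T) ∧
    (∀ T ∈ 𝒯, ∀ T' ∈ 𝒯, T ≠ T' → Disjoint (interior T) (interior T')) ∧ ⋃₀ 𝒯 = Set.univ

/-! ## Tents -/

/-- The tent of height `4 s` over `[-3 s, 3 s]` (slopes `± 4/3`); zero for `s ≤ 0`. -/
noncomputable def tent0 (s x : ℝ) : ℝ := max 0 (4 * s - 4 / 3 * |x|)

/-- The same tent centred at `1/2`. -/
noncomputable def tent (s u : ℝ) : ℝ := tent0 s (u - 1 / 2)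

/-- Signed tent centred at `1/2`. -/
noncomputable def disp (d u : ℝ) : ℝ := tent d u - tent (-d) u

/-! ## Cells -/

/-- the closed unit square with lower left corner `(i, j)` -/
def ucell (i j : ℤ) : Set ℂ := {z | (i : ℝ) ≤ z.re ∧ z.re ≤ i + 1 ∧ (j : ℝ) ≤ z.im ∧ z.im ≤ j + 1}

/-- The deformed cell: `V i j` is the (signed) displacement of the vertical edge with ends
`(i, j), (i, j+1)` to the right, `H i j` the displacement of the horizontal edge with ends
`(i, j), (i+1, j)` upwards. -/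
def fcell (V H : ℤ → ℤ → ℝ) (i j : ℤ) : Set ℂ :=
  {z | i + disp (V i j) (z.im - j) ≤ z.re ∧ z.re ≤ i + 1 + disp (V (i + 1) j) (z.im - j) ∧
    j + disp (H i j) (z.re - i) ≤ z.im ∧ z.im ≤ j + 1 + disp (H i (j + 1)) (z.re - i)}

/-! ## The prototiles -/

/-- displacement of the long sides of a bar -/
noncomputable def side (N : ℕ) (s x : ℝ) : ℝ := if ⌊x⌋ = (N : ℤ) then 0 else tent s (Int.fract x)

/-- The bar of length `2 N + 1`: bumps of size `s` on the unit edges of the two long sides (except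
at the central cell), a key (unit square) above and below the central cell with a dent of size `t`
at its far end, a dent of size `e` at the left end and a bump of size `e` at the right end. -/
def bar (N : ℕ) (s t e : ℝ) : Set ℂ :=
  {z | tent e z.im ≤ z.re ∧ z.re ≤ (2 * N + 1) + tent e z.im ∧
      -side N s z.re ≤ z.im ∧ z.im ≤ 1 + side N s z.re} ∪
  ({z | (N : ℝ) ≤ z.re ∧ z.re ≤ N + 1 ∧ 1 ≤ z.im ∧ z.im ≤ 2 - tent t (z.re - N)} ∪
   {z | (N : ℝ) ≤ z.re ∧ z.re ≤ N + 1 ∧ -1 + tent t (z.re - N) ≤ z.im ∧ z.im ≤ 0})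

/-- The filler: a unit square with a dent of size `p` at the bottom and one of size `q` at the
top. -/
def filler (p q : ℝ) : Set ℂ :=
  {z | 0 ≤ z.re ∧ z.re ≤ 1 ∧ tent p z.re ≤ z.im ∧ z.im ≤ 1 - tent q z.re}

/-- the first bar, of length `2 N + 1` -/
def BX (N : ℕ) : Set ℂ := bar N (1 / 80) (2 / 80) (3 / 80)

/-- the second bar, of length `2 N + 3` -/
def BY (N : ℕ) : Set ℂ := bar (N + 1) (2 / 80) (1 / 80) (4 / 80)

/-- the filler -/
def FF : Set ℂ := filler (1 / 80) (2 / 80)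

/-- the set of prototiles -/
def SS (N : ℕ) : Set (Set ℂ) := {BX N, BY N, FF}

/-! ## Local structure -/

/-- `T` has, in standard position (edge from `-1/2` to `1/2`, tile below), a dent of size `s`. -/
def StdDent (T : Set ℂ) (s : ℝ) : Prop :=
  ∀ z : ℂ, |z.re| < 1 / 2 → |z.im| < 1 / 4 → (z ∈ T ↔ z.im ≤ -tent0 s z.re)

/-- `T` has, in standard position (edge from `-1/2` to `1/2`, tile above), a bump of size `s`. -/
def StdBump (T : Set ℂ) (s : ℝ) : Prop :=
  ∀ z : ℂ, |z.re| < 1 / 2 → |z.im| < 1 / 4 → (z ∈ T ↔ -tent0 s z.re ≤ z.im)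

/-- `P` contains a square with corner `z`. -/
def RS (P : Set ℂ) (z : ℂ) : Prop :=
  ∃ u : ℂ, u ≠ 0 ∧ ∀ s t : ℝ, 0 ≤ s → s ≤ 1 → 0 ≤ t → t ≤ 1 → z + s * u + t * (I * u) ∈ P

/-- A prototile with the list of its tips (size, frame). -/
structure Good (P : Set ℂ) (tips : Set (ℝ × (ℂ ≃ᵢ ℂ))) : Prop where
  compact : IsCompact P
  int : (interior P).Nonempty
  bump : ∀ τ ∈ tips, 0 < τ.1 ∧ τ.1 ≤ 1 / 20 ∧ StdBump (τ.2 '' P) τ.1
  lsp : ∀ z ∈ P, RS P z ∨ ∃ τ ∈ tips, τ.2 z = -(4 * τ.1 : ℝ) * I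

/-- the reflection in the imaginary axis -/
noncomputable def refl0 : ℂ ≃ᵢ ℂ :=
  (conjLIE.toIsometryEquiv).trans (IsometryEquiv.neg ℂ)

end Pool.Agent.H159.SC
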