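import Pool.Agent.H159.SC.Stm

/-!
# Unions of unit cells over disjoint index sets (MP_ae4adf)
-/

set_option autoImplicit false

namespace Pool.Agent.H159.SC

open Set Complex

theorem ucell_eq_of_mem {i j i' j' : ℤ} {w : ℂ} (h : w ∈ ucell i j) (h' : w ∈ ucell i' j')
    (hr : ∀ n : ℤ, w.re ≠ n) (hi : ∀ n : ℤ, w.im ≠ n) : i = i' ∧ j = j' := by
  obtain ⟨h1, h2, h3, h4⟩ := h
  obtain ⟨h1', h2', h3', h4'⟩ := h'
  have a1 : (i : ℝ) < w.re := lt_of_le_of_ne h1 (hr i).symm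
  have a2 : w.re < i + 1 := lt_of_le_of_ne h2 (by simpa using hr (i + 1))
  have a3 : (j : ℝ) < w.im := lt_of_le_of_ne h3 (hi j).symm
  have a4 : w.im < j + 1 := lt_of_le_of_ne h4 (by simpa using hi (j + 1))
  have b1 : (i' : ℝ) < w.re := lt_of_le_of_ne h1' (hr i').symm
  have b2 : w.re < i' + 1 := lt_of_le_of_ne h2' (by simpa using hr (i' + 1))
  have b3 : (j' : ℝ) < w.im := lt_of_le_of_ne h3' (hi j').symm
  have b4 : w.im < j' + 1 := lt_of_le_of_ne h4' (by simpa using hi (j' + 1))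
  have c1 : (i : ℝ) < i' + 1 := a1.trans b2
  have c2 : (i' : ℝ) < i + 1 := b1.trans a2
  have c3 : (j : ℝ) < j' + 1 := a3.trans b4
  have c4 : (j' : ℝ) < j + 1 := b3.trans a4
  have d1 : i < i' + 1 := by exact_mod_cast c1
  have d2 : i' < i + 1 := by exact_mod_cast c2
  have d3 : j < j' + 1 := by exact_mod_cast c3
  have d4 : j' < j + 1 := by exact_mod_cast c4
  omega

theorem ok_cells : S_cells := by
  intro C D hCD
  rw [Set.disjoint_left]
  intro z hzC hzD
  set U : Set ℂ := interior (⋃ x ∈ C, ucell x.1 x.2) ∩ interior (⋃ x ∈ D, ucell x.1 x.2) with hU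
  have hUo : IsOpen U := isOpen_interior.inter isOpen_interior
  have hf : Continuous (fun t : ℝ => z + (t : ℂ) * (1 + I)) := by fun_prop
  have hpo : IsOpen ((fun t : ℝ => z + (t : ℂ) * (1 + I)) ⁻¹' U) := hUo.preimage hf
  have h0 : (0 : ℝ) ∈ (fun t : ℝ => z + (t : ℂ) * (1 + I)) ⁻¹' U := by
    simp only [Set.mem_preimage, Complex.ofReal_zero, zero_mul, add_zero]
    exact ⟨hzC, hzD⟩
  have hB : ((Set.range fun n : ℤ => (n : ℝ) - z.re) ∪
      (Set.range fun n : ℤ => (n : ℝ) - z.im)).Countable :=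
    (Set.countable_range _).union (Set.countable_range _)
  obtain ⟨t, ht1, ht2⟩ := (hB.dense_compl ℝ).inter_open_nonempty _ hpo ⟨0, h0⟩
  have hre : (z + (t : ℂ) * (1 + I)).re = z.re + t := by simp
  have him : (z + (t : ℂ) * (1 + I)).im = z.im + t := by simp
  obtain ⟨hw1, hw2⟩ := ht1
  have e1 := interior_subset hw1
  have e2 := interior_subset hw2
  simp only [Set.mem_iUnion] at e1 e2
  obtain ⟨x, hx, hx2⟩ := e1
  obtain ⟨y, hy, hy2⟩ := e2
  rw [Set.mem_compl_iff, Set.mem_union, not_or] at ht2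
  have key := ucell_eq_of_mem hx2 hy2 (fun n hn => ht2.1 ⟨n, by rw [hre] at hn; dsimp only; linarith⟩)
    (fun n hn => ht2.2 ⟨n, by rw [him] at hn; dsimp only; linarith⟩)
  have hxy : x = y := Prod.ext key.1 key.2
  subst hxy
  exact Set.disjoint_left.1 hCD hx hy

end Pool.Agent.H159.SC
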