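import Pool.Agent.H159.SC.Stm

/-!
# The fitting lemma
-/

set_option autoImplicit false

namespace Pool.Agent.H159.SC

open Set Complex

theorem fit_ball {z w : ℂ} {r : ℝ} (h : z ∈ Metric.ball w r) :
    |z.re - w.re| < r ∧ |z.im - w.im| < r := by
  rw [Metric.mem_ball, dist_eq_norm] at h
  constructor
  · have := Complex.abs_re_le_norm (z - w)
    rw [Complex.sub_re] at this; linarith
  · have := Complex.abs_im_le_norm (z - w)
    rw [Complex.sub_im] at this; linarith

theorem fit_refl0 (z : ℂ) : refl0 z = -(starRingEnd ℂ z) := rfl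

theorem fit_cone_closed (κ : ℝ) (m v : ℂ) : IsClosed (cone κ m v) := by
  unfold cone
  refine isClosed_le ?_ ?_
  · exact (Complex.continuous_im.comp ((continuous_id.sub continuous_const).div_const m)).abs
  · exact continuous_const.mul
      (Complex.continuous_re.comp ((continuous_id.sub continuous_const).div_const m))

theorem fit_coneI (κ : ℝ) (v z : ℂ) :
    z ∈ cone κ I v ↔ |z.re - v.re| ≤ κ * (z.im - v.im) := by
  unfold cone
  simp only [Set.mem_ofPred_eq, Complex.div_I, Complex.neg_im, Complex.neg_re, Complex.mul_im,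
    Complex.mul_re, Complex.I_re, Complex.I_im, Complex.sub_re, Complex.sub_im]
  ring_nf
  rw [abs_sub_comm]
  ring_nf

theorem fit_cone2 (v z : ℂ) (h0 : 0 ≤ z.im - v.im) (h1 : z.im - v.im ≤ 4 / 3 * (z.re - v.re)) :
    z ∈ cone (1 / 2) (2 + I) v := by
  unfold cone
  have e : (z - v) / (2 + I) = (z - v) * (2 - I) / 5 := by
    have hne : (2 + I : ℂ) ≠ 0 := by
      intro h; have := congrArg Complex.re h; simp at this
    rw [div_eq_div_iff hne (by norm_num)]
    linear_combination (z - v) * Complex.I_mul_I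
  simp only [Set.mem_ofPred_eq, e]
  have e5 : (5 : ℂ) = ((5 : ℝ) : ℂ) := by norm_num
  rw [e5, Complex.div_ofReal_im, Complex.div_ofReal_re]
  simp only [Complex.mul_im, Complex.mul_re, Complex.sub_re, Complex.sub_im, Complex.I_re,
    Complex.I_im]
  norm_num
  rw [abs_le]
  constructor <;> linarith

theorem fit_tent_le {s x : ℝ} (h : 0 ≤ 4 * s - 4 / 3 * |x|) :
    tent0 s x = 4 * s - 4 / 3 * |x| := by
  unfold tent0; exact max_eq_right h

theorem fit_tent_zero {s x : ℝ} (h : 4 * s - 4 / 3 * |x| ≤ 0) : tent0 s x = 0 := by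
  unfold tent0; exact max_eq_left h

theorem ok_fit (hhole : S_hole) (hrs : S_rscone) (htip : S_tipcone) (hthin : S_tipthin)
    (hiso : S_rsiso) : S_fit := by
  intro S tips 𝒯 hT T hTm s hs0 hs1 hD
  set v : ℂ := -(4 * s : ℝ) * I with hv
  have vre : v.re = 0 := by simp [hv]
  have vim : v.im = -(4 * s) := by simp [hv]
  -- the hole at the apex of the dent
  have hb : Metric.ball v s ⊆ T ∪ T ∪ cone (3 / 4) I v := by
    intro z hz
    obtain ⟨h1, h2⟩ := fit_ball hz
    rw [vre, sub_zero] at h1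
    rw [vim] at h2
    rw [abs_lt] at h2
    by_cases hzT : z ∈ T
    · exact Or.inl (Or.inl hzT)
    · right
      have hx : |z.re| < 1 / 2 := by linarith
      have hy : |z.im| < 1 / 4 := by rw [abs_lt]; constructor <;> linarith
      rw [hD z hx hy, fit_tent_le (by linarith)] at hzT
      rw [fit_coneI, vre, vim, sub_zero]
      linarith
  have hlim : ∀ ε > 0, ∃ w ∈ Metric.ball v ε, w ∉ T ∧ w ∉ T := by
    intro ε hε
    set δ : ℝ := min ε s / 2 with hδ
    have hδ0 : 0 < δ := by rw [hδ]; have := lt_min hε hs0; linarith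
    have hδ1 : δ < ε := by rw [hδ]; have := min_le_left ε s; have := lt_min hε hs0; linarith
    have hδ2 : δ < s := by rw [hδ]; have := min_le_right ε s; have := lt_min hε hs0; linarith
    have wre : (v + δ * I).re = 0 := by simp [vre]
    have wim : (v + δ * I).im = -(4 * s) + δ := by simp [vim]
    have hnot : v + δ * I ∉ T := by
      rw [hD _ (by rw [wre]; norm_num)
        (by rw [wim, abs_lt]; constructor <;> linarith), wre, wim, fit_tent_le (by simp; linarith)]
      simp only [abs_zero, mul_zero, sub_zero]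
      linarith
    refine ⟨v + δ * I, ?_, hnot, hnot⟩
    rw [Metric.mem_ball, dist_eq_norm]
    simp only [add_sub_cancel_left, norm_mul, Complex.norm_I, mul_one, Complex.norm_real,
      Real.norm_eq_abs, abs_of_pos hδ0]
    exact hδ1
  obtain ⟨T2, hT2, hne, -, hvT2, hint⟩ := hhole S tips 𝒯 hT T hTm T hTm v s (cone (3 / 4) I v) hs0
    (fit_cone_closed _ _ _) hb hlim
  obtain ⟨P, hP, g, hg⟩ := hT.tile T2 hT2
  have hgood := hT.good P hP
  obtain ⟨z', hz'P, hz'⟩ : ∃ z' ∈ P, g z' = v := by rw [hg] at hvT2; exact hvT2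
  rcases hgood.lsp z' hz'P with hRS | ⟨τ, hτ, hτz⟩
  · exfalso
    have h1 := hiso P z' g hRS
    rw [hz', ← hg] at h1
    exact hrs T2 v I (3 / 4) s h1 (by norm_num) (by norm_num) Complex.I_ne_zero hs0 hint
  obtain ⟨hp0, hp1, hbump⟩ := hgood.bump τ hτ
  set p : ℝ := τ.1 with hp
  set Q : Set ℂ := τ.2 '' P with hQ
  set h : ℂ ≃ᵢ ℂ := τ.2.symm.trans g with hh
  have hhQ : h '' Q = T2 := by
    rw [hQ, hg, ← Set.image_comp]
    refine Set.image_congr fun z _ => ?_
    simp [hh]
  have hhv : h (-(4 * p : ℝ) * I) = v := by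
    rw [← hτz, hh]; simp [hz']
  have hcase := htip Q p s h v hp0 hp1 hbump hhv hs0 (by rw [hhQ]; exact hint)
  -- the tile `T2` is a translate of a set with a standard bump
  obtain ⟨Q', hQ'b, hQ'T, hQ'Q⟩ : ∃ Q' : Set ℂ, StdBump Q' p ∧
      (∀ z, z ∈ T2 ↔ z - (v + (4 * p : ℝ) * I) ∈ Q') ∧ (Q' = Q ∨ Q' = refl0 '' Q) := by
    rcases hcase with hc | hc
    · refine ⟨Q, hbump, fun z => ?_, Or.inl rfl⟩
      rw [← hhQ]
      constructor
      · rintro ⟨w, hw, rfl⟩
        rw [hc w]; simpa using hw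
      · intro hz
        exact ⟨_, hz, by rw [hc]; ring⟩
    · refine ⟨refl0 '' Q, ?_, fun z => ?_, Or.inr rfl⟩
      · intro z hzx hzy
        have e1 : z ∈ refl0 '' Q ↔ refl0 z ∈ Q := by
          constructor
          · rintro ⟨w, hw, rfl⟩
            rw [fit_refl0, fit_refl0]; simpa using hw
          · intro hz
            exact ⟨_, hz, by rw [fit_refl0, fit_refl0]; simp⟩
        rw [e1]
        have r1 : (refl0 z).re = -z.re := by rw [fit_refl0]; simp
        have r2 : (refl0 z).im = z.im := by rw [fit_refl0]; simp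
        rw [hbump (refl0 z) (by rw [r1, abs_neg]; exact hzx) (by rw [r2]; exact hzy), r1, r2]
        unfold tent0
        rw [abs_neg]
      · rw [← hhQ]
        constructor
        · rintro ⟨w, hw, rfl⟩
          rw [hc w, add_sub_cancel_right]
          exact ⟨w, hw, rfl⟩
        · rintro ⟨w, hw, hwz⟩
          exact ⟨w, hw, by rw [hc, hwz]; ring⟩
  have cre : (v + (4 * p : ℝ) * I).re = 0 := by simp [vre]
  have cim : (v + (4 * p : ℝ) * I).im = 4 * (p - s) := by simp [vim]; ring
  have hmem2 : ∀ z : ℂ, |z.re| < 1 / 2 → |z.im - 4 * (p - s)| < 1 / 4 →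
      (z ∈ T2 ↔ 4 * (p - s) - tent0 p z.re ≤ z.im) := by
    intro z hzx hzy
    rw [hQ'T z, hQ'b _ (by rw [Complex.sub_re, cre, sub_zero]; exact hzx)
      (by rw [Complex.sub_im, cim]; exact hzy), Complex.sub_re, Complex.sub_im, cre, cim, sub_zero]
    constructor <;> intro h <;> linarith
  rcases lt_trichotomy p s with hlt | heq | hgt
  · -- overlap
    exfalso
    set D : ℝ := s - p with hDd
    have hD0 : 0 < D := by rw [hDd]; linarith
    set q : ℂ := ⟨2 * p + s, -(10 / 3) * D⟩ with hq
    have hsub : Metric.ball q (D / 4) ⊆ T ∩ T2 := by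
      intro z hz
      obtain ⟨h1, h2⟩ := fit_ball hz
      simp only [hq] at h1 h2
      rw [abs_lt] at h1 h2
      have hx0 : 0 < z.re := by linarith
      have hxabs : |z.re| = z.re := abs_of_pos hx0
      constructor
      · rw [hD z (by rw [hxabs]; linarith) (by rw [abs_lt]; constructor <;> linarith)]
        rcases le_or_gt 0 (4 * s - 4 / 3 * |z.re|) with h3 | h3
        · rw [fit_tent_le h3, hxabs]; linarith
        · rw [fit_tent_zero h3.le]; linarith
      · rw [hmem2 z (by rw [hxabs]; linarith) (by rw [abs_lt]; constructor <;> linarith)]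
        rw [fit_tent_zero (by rw [hxabs]; linarith)]
        linarith
    have hdis := hT.disj T hTm T2 hT2 (Ne.symm hne)
    have hq1 : q ∈ interior T :=
      mem_interior.mpr ⟨_, fun z hz => (hsub hz).1, Metric.isOpen_ball,
        Metric.mem_ball_self (by linarith)⟩
    have hq2 : q ∈ interior T2 :=
      mem_interior.mpr ⟨_, fun z hz => (hsub hz).2, Metric.isOpen_ball,
        Metric.mem_ball_self (by linarith)⟩
    exact Set.disjoint_left.mp hdis hq1 hq2
  · -- exact fit
    refine ⟨P, hP, τ, hτ, heq, ?_⟩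
    have hT2Q : T2 = Q' := by
      ext z
      rw [hQ'T z]
      have : v + (4 * p : ℝ) * I = 0 := by
        apply Complex.ext
        · rw [cre]; rfl
        · rw [cim, heq]; simp
      rw [this, sub_zero]
    rcases hQ'Q with h1 | h1
    · left; rw [← hQ, ← h1, ← hT2Q]; exact hT2
    · right; rw [← hQ, ← h1, ← hT2Q]; exact hT2
  · -- the hole at the corner of the mouth
    exfalso
    set u : ℂ := ⟨3 * s, 0⟩ with hu
    set ρ : ℝ := min (3 * (p - s)) s with hρ
    have hρ0 : 0 < ρ := lt_min (by linarith) hs0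
    have hρ1 : ρ ≤ 3 * (p - s) := min_le_left _ _
    have hρ2 : ρ ≤ s := min_le_right _ _
    have key : ∀ z : ℂ, |z.re - 3 * s| < ρ → |z.im - 0| < ρ →
        ((z ∈ T ↔ z.im ≤ -tent0 s z.re) ∧ (z ∈ T2 ↔ -(4 * s) + 4 / 3 * z.re ≤ z.im)) := by
      intro z h1 h2
      rw [abs_lt] at h1 h2
      have hx0 : 0 < z.re := by linarith
      have hxabs : |z.re| = z.re := abs_of_pos hx0
      constructor
      · exact hD z (by rw [hxabs]; linarith) (by rw [abs_lt]; constructor <;> linarith)
      · rw [hmem2 z (by rw [hxabs]; linarith) (by rw [abs_lt]; constructor <;> linarith),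
          fit_tent_le (by rw [hxabs]; linarith), hxabs]
        constructor <;> intro h <;> linarith
    have hb2 : Metric.ball u ρ ⊆ T ∪ T2 ∪ cone (1 / 2) (2 + I) u := by
      intro z hz
      obtain ⟨h1, h2⟩ := fit_ball hz
      simp only [hu] at h1 h2
      obtain ⟨k1, k2⟩ := key z h1 h2
      by_cases hz1 : z ∈ T
      · exact Or.inl (Or.inl hz1)
      by_cases hz2 : z ∈ T2
      · exact Or.inl (Or.inr hz2)
      right
      rw [k1] at hz1
      rw [k2] at hz2
      have hx0 : 0 < z.re := by rw [abs_lt] at h1; linarith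
      have h3 : -tent0 s z.re < z.im := lt_of_not_ge hz1
      have h4 : z.im < -(4 * s) + 4 / 3 * z.re := lt_of_not_ge hz2
      have hpos : ¬ (0 ≤ 4 * s - 4 / 3 * |z.re|) := by
        intro h5
        rw [fit_tent_le h5, abs_of_pos hx0] at h3
        linarith
      have h6 : 4 * s - 4 / 3 * |z.re| < 0 := lt_of_not_ge hpos
      rw [fit_tent_zero h6.le] at h3
      apply fit_cone2
      · simp only [hu]; linarith
      · simp only [hu]; linarith
    have hlim2 : ∀ ε > 0, ∃ w ∈ Metric.ball u ε, w ∉ T ∧ w ∉ T2 := by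
      intro ε hε
      set δ : ℝ := min ε ρ / 4 with hδ
      have hm := lt_min hε hρ0
      have hδ0 : 0 < δ := by rw [hδ]; linarith
      have hδ1 : 2 * δ < ε := by rw [hδ]; have := min_le_left ε ρ; linarith
      have hδ2 : 2 * δ < ρ := by rw [hδ]; have := min_le_right ε ρ; linarith
      have hd : dist (⟨3 * s + δ, δ⟩ : ℂ) u ≤ 2 * δ := by
        rw [dist_eq_norm]
        refine (Complex.norm_le_abs_re_add_abs_im _).trans ?_
        simp only [hu, Complex.sub_re, Complex.sub_im]
        rw [show 3 * s + δ - 3 * s = δ by ring, sub_zero, abs_of_pos hδ0]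
        linarith
      obtain ⟨k1, k2⟩ := key ⟨3 * s + δ, δ⟩
        (by simp only; rw [show 3 * s + δ - 3 * s = δ by ring, abs_of_pos hδ0]; linarith)
        (by simp only; rw [sub_zero, abs_of_pos hδ0]; linarith)
      refine ⟨⟨3 * s + δ, δ⟩, by rw [Metric.mem_ball]; linarith, ?_, ?_⟩
      · rw [k1, fit_tent_zero (by simp only; rw [abs_of_pos (by linarith)]; linarith)]
        simp only [neg_zero, not_le]
        exact hδ0
      · rw [k2]
        simp only [not_le]
        linarith
    obtain ⟨T3, hT3, -, -, huT3, hint3⟩ := hhole S tips 𝒯 hT T hTm T2 hT2 u ρ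
      (cone (1 / 2) (2 + I) u) hρ0 (fit_cone_closed _ _ _) hb2 hlim2
    have hm0 : (2 + I : ℂ) ≠ 0 := by
      intro h; have := congrArg Complex.re h; simp at this
    obtain ⟨P3, hP3, g3, hg3⟩ := hT.tile T3 hT3
    have hgood3 := hT.good P3 hP3
    obtain ⟨z3, hz3P, hz3⟩ : ∃ z3 ∈ P3, g3 z3 = u := by rw [hg3] at huT3; exact huT3
    rcases hgood3.lsp z3 hz3P with hRS | ⟨τ3, hτ3, hτz3⟩
    · have h1 := hiso P3 z3 g3 hRS
      rw [hz3, ← hg3] at h1
      exact hrs T3 u (2 + I) (1 / 2) ρ h1 (by norm_num) (by norm_num) hm0 hρ0 hint3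
    · obtain ⟨a0, a1, a2⟩ := hgood3.bump τ3 hτ3
      have e1 : (τ3.2.symm.trans g3) '' (τ3.2 '' P3) = T3 := by
        rw [hg3, ← Set.image_comp]
        refine Set.image_congr fun z _ => ?_
        simp
      have e2 : (τ3.2.symm.trans g3) (-(4 * τ3.1 : ℝ) * I) = u := by
        rw [← hτz3]; simp [hz3]
      exact hthin (τ3.2 '' P3) τ3.1 ρ (τ3.2.symm.trans g3) u (2 + I) a0 a1 a2 e2 hρ0 hm0
        (by rw [e1]; exact hint3)

end Pool.Agent.H159.SC
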