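import Pool.Agent.H159.SC.Stm

/-!
# Local finiteness of tilings (MP_ae4adf)
-/

set_option autoImplicit false

namespace Pool.Agent.H159.SC

open Set Complex MeasureTheory

/-- local finiteness for the tiles of one shape -/
theorem lf_one (𝒯 : Set (Set ℂ)) (P : Set ℂ) (hP : IsCompact P) (hPi : (interior P).Nonempty)
    (hd : ∀ T ∈ 𝒯, ∀ T' ∈ 𝒯, T ≠ T' → Disjoint (interior T) (interior T')) (v : ℂ) (r : ℝ) :
    {T ∈ 𝒯 | (∃ g : ℂ ≃ᵢ ℂ, T = g '' P) ∧ (T ∩ Metric.closedBall v r).Nonempty}.Finite := by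
  obtain ⟨c, hc⟩ := hPi
  obtain ⟨ρ, hρ, hball⟩ := Metric.isOpen_iff.1 isOpen_interior c hc
  obtain ⟨D, hD⟩ := hP.isBounded.exists_pos_norm_le
  set A := {T ∈ 𝒯 | (∃ g : ℂ ≃ᵢ ℂ, T = g '' P) ∧ (T ∩ Metric.closedBall v r).Nonempty} with hA
  have hsub : ∀ T : A, (T : Set ℂ) ⊆ Metric.closedBall v (r + 2 * D) := by
    rintro ⟨T, hT, ⟨g, rfl⟩, ⟨w, ⟨p, hp, rfl⟩, hw⟩⟩ x ⟨q, hq, rfl⟩
    rw [Metric.mem_closedBall] at hw ⊢
    have h1 : dist (g q) (g p) = dist q p := g.dist_eq q p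
    have h2 : dist q p ≤ ‖q‖ + ‖p‖ := by
      rw [dist_eq_norm]; exact norm_sub_le q p
    have h3 := dist_triangle (g q) (g p) v
    have h4 := hD.2 q hq
    have h5 := hD.2 p hp
    linarith
  have hmeas : ∀ T : A, ENNReal.ofReal ρ ^ 2 * NNReal.pi ≤ volume (interior (T : Set ℂ)) := by
    rintro ⟨T, hT, ⟨g, rfl⟩, -⟩
    have h1 : Metric.ball (g c) ρ ⊆ interior (g '' P) := by
      refine interior_maximal ?_ Metric.isOpen_ball
      rw [← g.image_ball]
      exact Set.image_mono (hball.trans interior_subset)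
    calc ENNReal.ofReal ρ ^ 2 * NNReal.pi = volume (Metric.ball (g c) ρ) :=
          (Complex.volume_ball (g c) ρ).symm
      _ ≤ _ := measure_mono h1
  have hpos : 0 < ENNReal.ofReal ρ ^ 2 * (NNReal.pi : ENNReal) := by
    refine ENNReal.mul_pos ?_ ?_
    · exact pow_ne_zero 2 (by simpa using hρ)
    · simp [NNReal.pi_ne_zero]
  have hfin := Measure.finite_const_le_meas_of_disjoint_iUnion (ι := A) volume hpos
    (As := fun T => interior (T : Set ℂ)) (fun T => isOpen_interior.measurableSet)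
    (fun T T' hne => hd T T.2.1 T' T'.2.1 (fun h => hne (Subtype.ext h)))
    (by
      refine ((measure_mono (Set.iUnion_subset fun T => interior_subset.trans (hsub T))).trans_lt
        ?_).ne
      exact measure_closedBall_lt_top)
  have h6 : (Set.univ : Set A).Finite := by
    refine hfin.subset fun T _ => ?_
    exact hmeas T
  have h7 : Finite A := Set.finite_univ_iff.1 h6
  exact Set.toFinite A

theorem ok_lf : S_lf := by
  intro S tips 𝒯 h v r
  have h1 : (⋃ P ∈ S, {T ∈ 𝒯 | (∃ g : ℂ ≃ᵢ ℂ, T = g '' P) ∧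
      (T ∩ Metric.closedBall v r).Nonempty}).Finite :=
    h.fin.biUnion fun P hP => lf_one 𝒯 P (h.good P hP).compact (h.good P hP).int h.disj v r
  refine h1.subset ?_
  rintro T ⟨hT, hT2⟩
  obtain ⟨P, hP, g, hg⟩ := h.tile T hT
  rw [Set.mem_iUnion₂]
  exact ⟨P, hP, hT, ⟨g, hg⟩, hT2⟩

end Pool.Agent.H159.SC
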