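import Pool.Agent.H159.SC.Stm

/-!
# The deformation homeomorphism (project NS)
-/

set_option autoImplicit false

namespace Pool.Agent.H159.SC.Phi

open Set Complex Topology Filter

/-- the hat of width `1/4` at the nearest integer -/
noncomputable def T (x : ℝ) : ℝ := max 0 (1 - 4 * |x - round x|)

theorem T_nonneg (x : ℝ) : 0 ≤ T x := le_max_left _ _

theorem T_le (x : ℝ) : T x ≤ 1 := by
  apply max_le zero_le_one
  have := abs_nonneg (x - round x)
  linarith

theorem T_zero (x : ℝ) (h : 1 / 4 ≤ |x - round x|) : T x = 0 := by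
  apply max_eq_left
  linarith

theorem T_int (i : ℤ) : T i = 1 := by
  simp [T]

theorem tent_zero (s u : ℝ) (hs : s ≤ 1 / 20) (hu : 3 / 20 ≤ |u - 1 / 2|) : tent s u = 0 := by
  unfold tent tent0
  apply max_eq_left
  linarith

theorem disp_zero (d u : ℝ) (hd : |d| ≤ 1 / 20) (hu : 3 / 20 ≤ |u - 1 / 2|) : disp d u = 0 := by
  have h := abs_le.1 hd
  unfold disp
  rw [tent_zero _ _ h.2 hu, tent_zero _ _ (by linarith) hu, sub_zero]

theorem tent_le (s u : ℝ) (hs : s ≤ 1 / 20) : tent s u ≤ 1 / 5 := by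
  unfold tent tent0
  apply max_le (by norm_num)
  have := abs_nonneg (u - 1 / 2)
  linarith

theorem tent_nonneg (s u : ℝ) : 0 ≤ tent s u := le_max_left _ _

theorem disp_le (d u : ℝ) (hd : |d| ≤ 1 / 20) : |disp d u| ≤ 1 / 5 := by
  have h := abs_le.1 hd
  have h1 := tent_le d u h.2
  have h2 := tent_le (-d) u (by linarith)
  have h3 := tent_nonneg d u
  have h4 := tent_nonneg (-d) u
  unfold disp
  rw [abs_le]
  constructor <;> linarith

theorem disp_cont (d : ℝ) : Continuous (disp d) := by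
  unfold disp tent tent0
  fun_prop

/-- displacement -/
noncomputable def A (V : ℤ → ℤ → ℝ) (x y : ℝ) : ℝ := disp (V (round x) ⌊y⌋) (Int.fract y) * T x

section

variable (V : ℤ → ℤ → ℝ) (hV : ∀ i j, |V i j| ≤ 1 / 20)

include hV

theorem A_le (x y : ℝ) : |A V x y| ≤ 1 / 5 := by
  unfold A
  rw [abs_mul, abs_of_nonneg (T_nonneg x)]
  have h1 := disp_le _ (Int.fract y) (hV (round x) ⌊y⌋)
  have h2 := T_le x
  have h3 := T_nonneg x
  have h4 := abs_nonneg (disp (V (round x) ⌊y⌋) (Int.fract y))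
  nlinarith

/-- local formula in `y` -/
theorem A_loc (x y : ℝ) (j : ℤ) (h1 : (j : ℝ) - 7 / 20 ≤ y) (h2 : y ≤ j + 1 + 7 / 20) :
    A V x y = disp (V (round x) j) (y - j) * T x := by
  unfold A
  congr 1
  rcases lt_or_ge y j with h | h
  · have hf : ⌊y⌋ = j - 1 := by
      rw [Int.floor_eq_iff]; push_cast; constructor <;> linarith
    have hr : Int.fract y = y - j + 1 := by
      rw [Int.fract, hf]; push_cast; ring
    rw [disp_zero _ _ (hV _ _), disp_zero _ _ (hV _ _)]
    · rw [abs_of_nonpos (by linarith)]; linarith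
    · rw [hr, abs_of_nonneg (by linarith)]; linarith
  · rcases lt_or_ge y (j + 1) with h' | h'
    · have hf : ⌊y⌋ = j := by
        rw [Int.floor_eq_iff]; constructor <;> linarith
      rw [Int.fract, hf]
    · have hf : ⌊y⌋ = j + 1 := by
        rw [Int.floor_eq_iff]; push_cast; constructor <;> linarith
      have hr : Int.fract y = y - j - 1 := by
        rw [Int.fract, hf]; push_cast; ring
      rw [disp_zero _ _ (hV _ _), disp_zero _ _ (hV _ _)]
      · rw [abs_of_nonneg (by linarith)]; linarith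
      · rw [hr, abs_of_nonpos (by linarith)]; linarith

omit hV in
theorem T_loc (x : ℝ) (i : ℤ) (h : |x - i| < 3 / 4) : T x = max 0 (1 - 4 * |x - i|) := by
  by_cases hi : round x = i
  · rw [T, hi]
  · have h1 : |x - round x| ≤ 1 / 2 := abs_sub_round x
    have h2 : (1 : ℝ) ≤ |(round x : ℝ) - i| := by
      have : (1 : ℤ) ≤ |round x - i| := Int.one_le_abs (sub_ne_zero.2 hi)
      exact_mod_cast this
    have h3 : |(round x : ℝ) - i| ≤ |x - round x| + |x - i| := by
      have := abs_sub_le (round x : ℝ) x i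
      rwa [abs_sub_comm (round x : ℝ) x] at this
    rw [T_zero x (by linarith)]
    symm
    apply max_eq_left
    linarith

/-- local formula in both variables -/
theorem A_loc2 (x y : ℝ) (i j : ℤ) (h0 : |x - i| < 3 / 4) (h1 : (j : ℝ) - 7 / 20 ≤ y)
    (h2 : y ≤ j + 1 + 7 / 20) :
    A V x y = disp (V i j) (y - j) * max 0 (1 - 4 * |x - i|) := by
  rw [A_loc V hV x y j h1 h2]
  by_cases hi : round x = i
  · rw [T, hi]
  · have h1 : |x - round x| ≤ 1 / 2 := abs_sub_round x
    have h2 : (1 : ℝ) ≤ |(round x : ℝ) - i| := by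
      have : (1 : ℤ) ≤ |round x - i| := Int.one_le_abs (sub_ne_zero.2 hi)
      exact_mod_cast this
    have h3 : |(round x : ℝ) - i| ≤ |x - round x| + |x - i| := by
      have := abs_sub_le (round x : ℝ) x i
      rwa [abs_sub_comm (round x : ℝ) x] at this
    rw [T_zero x (by linarith), max_eq_left (by linarith : 1 - 4 * |x - (i : ℝ)| ≤ 0)]
    ring

theorem A_cont : Continuous (fun p : ℝ × ℝ => A V p.1 p.2) := by
  rw [continuous_iff_continuousAt]
  rintro ⟨x, y⟩
  have h1 : Continuous (fun p : ℝ × ℝ => disp (V (round x) ⌊y⌋) (p.2 - ⌊y⌋) *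
      max 0 (1 - 4 * |p.1 - round x|)) := by
    have := disp_cont (V (round x) ⌊y⌋)
    fun_prop
  refine h1.continuousAt.congr ?_
  have hx : ∀ᶠ p : ℝ × ℝ in 𝓝 (x, y), |p.1 - round x| < 3 / 4 := by
    have h2 : Continuous (fun p : ℝ × ℝ => |p.1 - round x|) := by fun_prop
    apply h2.continuousAt.eventually_lt continuousAt_const
    have := abs_sub_round x
    change |x - round x| < 3 / 4
    linarith
  have hy : ∀ᶠ p : ℝ × ℝ in 𝓝 (x, y), (⌊y⌋ : ℝ) - 7 / 20 < p.2 := by
    apply continuousAt_const.eventually_lt continuous_snd.continuousAt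
    have := Int.floor_le y
    change (⌊y⌋ : ℝ) - 7 / 20 < y
    linarith
  have hy' : ∀ᶠ p : ℝ × ℝ in 𝓝 (x, y), p.2 < ⌊y⌋ + 1 + 7 / 20 := by
    apply continuous_snd.continuousAt.eventually_lt continuousAt_const
    have := Int.lt_floor_add_one y
    change y < ⌊y⌋ + 1 + 7 / 20
    linarith
  filter_upwards [hx, hy, hy'] with p ha hb hc
  exact (A_loc2 V hV p.1 p.2 _ _ ha hb.le hc.le).symm

theorem A_lo (x y : ℝ) : (round x : ℝ) - 1 / 2 ≤ x + A V x y := by
  have h1 := abs_sub_round x
  have h2 := abs_le.1 (A_le V hV x y)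
  by_cases h : 1 / 4 ≤ |x - round x|
  · have : A V x y = 0 := by unfold A; rw [T_zero x h, mul_zero]
    rw [this]
    have := abs_le.1 h1
    linarith
  · have := abs_lt.1 (not_le.1 h)
    linarith

theorem A_hi (x y : ℝ) : x + A V x y < (round x : ℝ) + 1 / 2 := by
  have h2 := abs_le.1 (A_le V hV x y)
  by_cases h : 1 / 4 ≤ |x - round x|
  · have h0 : A V x y = 0 := by unfold A; rw [T_zero x h, mul_zero]
    rw [h0, round_eq]
    have := Int.lt_floor_add_one (x + 1 / 2)
    linarith
  · have := abs_lt.1 (not_le.1 h)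
    linarith

theorem A_mono (y : ℝ) : StrictMono (fun x => x + A V x y) := by
  intro x x' hx
  change x + A V x y < x' + A V x' y
  rcases eq_or_ne (round x) (round x') with h | h
  · have hD := disp_le _ (Int.fract y) (hV (round x') ⌊y⌋)
    have hT : |T x - T x'| ≤ 4 * |x - x'| := by
      unfold T
      rw [h]
      have h1 := abs_max_sub_max_le_abs (1 - 4 * |x - round x'|) (1 - 4 * |x' - round x'|) 0
      rw [max_comm _ (0 : ℝ), max_comm _ (0 : ℝ)] at h1
      refine h1.trans ?_
      have h2 := abs_abs_sub_abs_le_abs_sub (x' - (round x' : ℝ)) (x - round x')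
      rw [show (1 - 4 * |x - (round x' : ℝ)| - (1 - 4 * |x' - (round x' : ℝ)|)) =
        4 * (|x' - (round x' : ℝ)| - |x - (round x' : ℝ)|) by ring, abs_mul]
      rw [show x' - (round x' : ℝ) - (x - round x') = -(x - x') by ring, abs_neg] at h2
      norm_num
      linarith
    have hA : A V x y - A V x' y = disp (V (round x') ⌊y⌋) (Int.fract y) * (T x - T x') := by
      unfold A
      rw [h]; ring
    have hB : |A V x y - A V x' y| ≤ 1 / 5 * (4 * |x - x'|) := by
      rw [hA, abs_mul]
      exact mul_le_mul hD hT (abs_nonneg _) (by norm_num)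
    have h3 := le_abs_self (A V x y - A V x' y)
    rw [abs_of_neg (sub_neg.2 hx)] at hB
    linarith
  · have h1 : round x < round x' := by
      apply lt_of_le_of_ne _ h
      rw [round_eq, round_eq]
      exact Int.floor_mono (by linarith)
    have h2 : (round x : ℝ) + 1 ≤ round x' := by exact_mod_cast h1
    have h3 := A_hi V hV x y
    have h4 := A_lo V hV x' y
    linarith

theorem A_cont1 (y : ℝ) : Continuous (fun x => x + A V x y) :=
  continuous_id.add ((A_cont V hV).comp (continuous_id.prodMk continuous_const))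

theorem A_surj (y : ℝ) : Function.Surjective (fun x => x + A V x y) := by
  apply (A_cont1 V hV y).surjective
  · apply tendsto_atTop_mono (f := fun x : ℝ => x + (-1 / 5))
    · intro x
      have h2 := abs_le.1 (A_le V hV x y)
      linarith
    · exact tendsto_atTop_add_const_right _ _ tendsto_id
  · refine tendsto_atBot_mono (f := fun x : ℝ => x + 1 / 5) ?_ ?_
    · intro x
      have h2 := abs_le.1 (A_le V hV x y)
      linarith
    · exact tendsto_atBot_add_const_right _ _ tendsto_id

omit hV in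
/-- the shear -/
noncomputable def S (p : ℝ × ℝ) : ℝ × ℝ := (p.1 + A V p.1 p.2, p.2)

theorem S_bij : Function.Bijective (S V) := by
  constructor
  · rintro ⟨x, y⟩ ⟨x', y'⟩ h
    have h2 : y = y' := congrArg Prod.snd h
    subst h2
    have h1 : x + A V x y = x' + A V x' y := congrArg Prod.fst h
    have h3 : x = x' := (A_mono V hV y).injective h1
    rw [h3]
  · rintro ⟨u, y⟩
    obtain ⟨x, hx⟩ := A_surj V hV y u
    exact ⟨(x, y), Prod.ext hx rfl⟩

theorem S_cont : Continuous (S V) :=
  (continuous_fst.add (A_cont V hV)).prodMk continuous_snd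

theorem S_closed : IsClosedMap (S V) := by
  have h1 : IsProperMap (S V) := by
    rw [isProperMap_iff_tendsto_cocompact]
    refine ⟨S_cont V hV, ?_⟩
    rw [← Metric.cobounded_eq_cocompact, ← tendsto_norm_atTop_iff_cobounded]
    apply tendsto_atTop_mono (f := fun p : ℝ × ℝ => ‖p‖ + (-1 / 5))
    · intro p
      have h2 : ‖p‖ ≤ ‖S V p‖ + ‖p - S V p‖ := by
        have := norm_add_le (S V p) (p - S V p)
        rwa [add_sub_cancel] at this
      have h3 : ‖p - S V p‖ ≤ 1 / 5 := by
        rw [Prod.norm_def]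
        apply max_le
        · change |p.1 - (p.1 + A V p.1 p.2)| ≤ 1 / 5
          rw [sub_add_cancel_left, abs_neg]
          exact A_le V hV _ _
        · change |p.2 - p.2| ≤ 1 / 5
          rw [sub_self, abs_zero]; norm_num
      linarith
    · exact tendsto_atTop_add_const_right _ _ tendsto_norm_cobounded_atTop
  exact h1.isClosedMap

omit hV in
/-- the shear as a homeomorphism -/
noncomputable def hS (hV : ∀ i j, |V i j| ≤ 1 / 20) : ℝ × ℝ ≃ₜ ℝ × ℝ :=
  (Equiv.ofBijective (S V) (S_bij V hV)).toHomeomorphOfContinuousClosed (S_cont V hV)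
    (S_closed V hV)

/-- order relation with the integer lines -/
theorem S_left (x y : ℝ) (i j : ℤ) (h1 : (j : ℝ) - 7 / 20 ≤ y) (h2 : y ≤ j + 1 + 7 / 20) :
    (i : ℝ) ≤ x ↔ i + disp (V i j) (y - j) ≤ x + A V x y := by
  have h3 : (i : ℝ) + A V i y = i + disp (V i j) (y - j) := by
    rw [A_loc V hV i y j h1 h2, T_int, mul_one, round_intCast]
  rw [← h3]
  exact ((A_mono V hV y).le_iff_le).symm

theorem S_right (x y : ℝ) (i j : ℤ) (h1 : (j : ℝ) - 7 / 20 ≤ y) (h2 : y ≤ j + 1 + 7 / 20) :
    x ≤ (i : ℝ) ↔ x + A V x y ≤ i + disp (V i j) (y - j) := by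
  have h3 : (i : ℝ) + A V i y = i + disp (V i j) (y - j) := by
    rw [A_loc V hV i y j h1 h2, T_int, mul_one, round_intCast]
  rw [← h3]
  exact ((A_mono V hV y).le_iff_le).symm

/-- near integers in the moved direction after the move -/
theorem A_near (x y : ℝ) (h : A V x y ≠ 0) :
    |x - round x| < 1 / 4 ∧ |x + A V x y - round x| < 1 / 4 := by
  have h1 : |x - round x| < 1 / 4 := by
    by_contra hc
    exact h (by unfold A; rw [T_zero x (not_lt.1 hc), mul_zero])
  refine ⟨h1, ?_⟩
  have hD := disp_le _ (Int.fract y) (hV (round x) ⌊y⌋)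
  have hT : T x = 1 - 4 * |x - round x| := max_eq_right (by linarith)
  have hA : |A V x y| ≤ 1 / 5 * (1 - 4 * |x - round x|) := by
    unfold A
    rw [abs_mul, abs_of_nonneg (T_nonneg x), hT]
    exact mul_le_mul_of_nonneg_right hD (by linarith)
  have h2 : |x + A V x y - round x| ≤ |x - round x| + |A V x y| := by
    rw [show x + A V x y - round x = (x - round x) + A V x y by ring]
    exact abs_add_le _ _
  linarith

end

/-- a point near an integer is far from the middle of every unit interval -/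
theorem far_mid (x : ℝ) (r i : ℤ) (h : |x - r| < 1 / 4) : 3 / 20 ≤ |x - i - 1 / 2| := by
  have h1 : (1 / 2 : ℝ) ≤ |(r : ℝ) - i - 1 / 2| := by
    rcases le_or_gt r i with hr | hr
    · have : (r : ℝ) ≤ i := by exact_mod_cast hr
      rw [abs_of_nonpos (by linarith)]; linarith
    · have : (i : ℝ) + 1 ≤ r := by exact_mod_cast hr
      rw [abs_of_nonneg (by linarith)]; linarith
  have h2 := abs_sub_le ((r : ℝ) - i - 1 / 2) (x - i - 1 / 2) 0
  rw [sub_zero, sub_zero, show (r : ℝ) - i - 1 / 2 - (x - i - 1 / 2) = -(x - r) by ring,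
    abs_neg] at h2
  linarith

/-- swapped second family -/
def sw (H : ℤ → ℤ → ℝ) : ℤ → ℤ → ℝ := fun a b => H b a

theorem key (V H : ℤ → ℤ → ℝ) (hV : ∀ i j, |V i j| ≤ 1 / 20) (hH : ∀ i j, |H i j| ≤ 1 / 20)
    (x y : ℝ) (i j : ℤ) :
    let x' := x + A V x y
    let y' := y + A (sw H) y x'
    ((i : ℝ) ≤ x ∧ x ≤ i + 1 ∧ (j : ℝ) ≤ y ∧ y ≤ j + 1) ↔
    (i + disp (V i j) (y' - j) ≤ x' ∧ x' ≤ i + 1 + disp (V (i + 1) j) (y' - j) ∧
    j + disp (H i j) (x' - i) ≤ y' ∧ y' ≤ j + 1 + disp (H i (j + 1)) (x' - i)) := by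
  intro x' y'
  have hH' : ∀ i j, |sw H i j| ≤ 1 / 20 := fun i j => hH j i
  have hd : ∀ a : ℤ, disp (V a j) (y' - j) = disp (V a j) (y - j) := by
    intro a
    by_cases h : A (sw H) y x' = 0
    · have : y' = y := by simp only [y', h, add_zero]
      rw [this]
    · obtain ⟨h1, h2⟩ := A_near (sw H) hH' y x' h
      rw [disp_zero _ _ (hV _ _) (far_mid y _ _ h1), disp_zero _ _ (hV _ _) (far_mid y' _ _ h2)]
  rw [hd, hd]
  have hx1 : ∀ a : ℤ, |disp (V a j) (y - j)| ≤ 1 / 5 := fun a => disp_le _ _ (hV _ _)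
  constructor
  · rintro ⟨h1, h2, h3, h4⟩
    have e1 := (S_left V hV x y i j (by linarith) (by linarith)).1 h1
    have e2 := (S_right V hV x y (i + 1) j (by linarith) (by linarith)).1 (by push_cast; linarith)
    push_cast at e2
    have b1 := abs_le.1 (hx1 i)
    have b2 := abs_le.1 (hx1 (i + 1))
    have c1 : (i : ℝ) - 7 / 20 ≤ x' := by change (i : ℝ) - 7 / 20 ≤ x + A V x y; linarith
    have c2 : x' ≤ i + 1 + 7 / 20 := by change x + A V x y ≤ i + 1 + 7 / 20; linarith
    have e3 := (S_left (sw H) hH' y x' j i c1 c2).1 h3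
    have e4 := (S_right (sw H) hH' y x' (j + 1) i c1 c2).1 (by push_cast; linarith)
    push_cast at e4
    exact ⟨e1, e2, e3, e4⟩
  · rintro ⟨h1, h2, h3, h4⟩
    have b1 := abs_le.1 (hx1 i)
    have b2 := abs_le.1 (hx1 (i + 1))
    have c1 : (i : ℝ) - 7 / 20 ≤ x' := by linarith
    have c2 : x' ≤ i + 1 + 7 / 20 := by linarith
    have e3 := (S_left (sw H) hH' y x' j i c1 c2).2 h3
    have e4 := (S_right (sw H) hH' y x' (j + 1) i c1 c2).2 (by push_cast; exact h4)
    push_cast at e4
    have e1 := (S_left V hV x y i j (by linarith) (by linarith)).2 h1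
    have e2 := (S_right V hV x y (i + 1) j (by linarith) (by linarith)).2 (by push_cast; exact h2)
    push_cast at e2
    exact ⟨e1, e2, e3, e4⟩

/-- the deformation -/
noncomputable def hPhi (V H : ℤ → ℤ → ℝ) (hV : ∀ i j, |V i j| ≤ 1 / 20)
    (hH : ∀ i j, |H i j| ≤ 1 / 20) : ℂ ≃ₜ ℂ :=
  (((((Complex.equivRealProdCLM.toHomeomorph).trans (hS V hV)).trans
    (Homeomorph.prodComm ℝ ℝ)).trans (hS (sw H) fun i j => hH j i)).trans
    (Homeomorph.prodComm ℝ ℝ)).trans Complex.equivRealProdCLM.toHomeomorph.symm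

end Pool.Agent.H159.SC.Phi

namespace Pool.Agent.H159.SC

/-- the deformation homeomorphism -/
theorem ok_phi : S_phi := by
  intro V H hV hH
  refine ⟨Phi.hPhi V H hV hH, fun i j => ?_⟩
  ext w
  obtain ⟨z, rfl⟩ := (Phi.hPhi V H hV hH).surjective w
  rw [(Phi.hPhi V H hV hH).injective.mem_set_image]
  exact Phi.key V H hV hH z.re z.im i j

end Pool.Agent.H159.SC
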