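import Pool.Agent.H159.SC.Stm

/-!
# Star lemma (project NS): a finite union of compact convex sets with a common interior point is a
closed topological disk.
-/

set_option autoImplicit false

namespace Pool.Agent.H159.SC.Star

open Set Complex Topology

variable {ι : Type} [Fintype ι] [Nonempty ι]

/-- the gauge of the union -/
noncomputable def g (K : ι → Set ℂ) (x : ℂ) : ℝ :=
  Finset.univ.inf' Finset.univ_nonempty (fun i => gauge (K i) x)

/-- rescaling -/
noncomputable def F (K : ι → Set ℂ) (x : ℂ) : ℂ := (g K x / ‖x‖) • x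

/-- inverse rescaling -/
noncomputable def G (K : ι → Set ℂ) (x : ℂ) : ℂ := (‖x‖ / g K x) • x

structure Hyp (K : ι → Set ℂ) : Prop where
  conv : ∀ i, Convex ℝ (K i)
  cpt : ∀ i, IsCompact (K i)
  nhd : ∀ i, K i ∈ 𝓝 (0 : ℂ)

omit [Nonempty ι] in
theorem gsmul [Nonempty ι] (K : ι → Set ℂ) (t : ℝ) (ht : 0 ≤ t) (x : ℂ) :
    g K (t • x) = t * g K x := by
  have h1 : ∀ i, gauge (K i) (t • x) = t * gauge (K i) x := fun i => by
    rw [gauge_smul_of_nonneg ht, smul_eq_mul]
  apply le_antisymm
  · obtain ⟨i, -, hi⟩ := Finset.exists_mem_eq_inf' (Finset.univ_nonempty (α := ι))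
      (fun i => gauge (K i) x)
    have : g K x = gauge (K i) x := hi
    rw [this, ← h1 i]
    exact Finset.inf'_le _ (Finset.mem_univ i)
  · apply Finset.le_inf'
    intro i _
    simp only [h1 i]
    exact mul_le_mul_of_nonneg_left (Finset.inf'_le _ (Finset.mem_univ i)) ht

theorem g0 (K : ι → Set ℂ) : g K 0 = 0 := by
  have := gsmul K 0 le_rfl 0
  simpa using this

theorem gcont (K : ι → Set ℂ) (h : Hyp K) : Continuous (g K) := by
  unfold g
  exact Continuous.finset_inf'_apply _ fun i _ => continuous_gauge (h.conv i) (h.nhd i)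

theorem glow (K : ι → Set ℂ) (h : Hyp K) : ∃ R : ℝ, 0 < R ∧ ∀ x, ‖x‖ / R ≤ g K x := by
  have hb : Bornology.IsBounded (⋃ i, K i) := by
    rw [Bornology.isBounded_iUnion]
    exact fun i => (h.cpt i).isBounded
  obtain ⟨R, hR⟩ := hb.subset_closedBall 0
  refine ⟨max R 1, lt_of_lt_of_le one_pos (le_max_right _ _), fun x => ?_⟩
  apply Finset.le_inf'
  intro i _
  apply le_gauge_of_subset_closedBall (absorbent_nhds_zero (h.nhd i))
    (le_trans zero_le_one (le_max_right _ _))
  exact (subset_iUnion K i).trans (hR.trans (Metric.closedBall_subset_closedBall (le_max_left _ _)))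

theorem gpos (K : ι → Set ℂ) (h : Hyp K) (x : ℂ) (hx : x ≠ 0) : 0 < g K x := by
  obtain ⟨R, hR, h2⟩ := glow K h
  exact lt_of_lt_of_le (div_pos (norm_pos_iff.2 hx) hR) (h2 x)

theorem gnn (K : ι → Set ℂ) (h : Hyp K) (x : ℂ) : 0 ≤ g K x := by
  rcases eq_or_ne x 0 with rfl | hx
  · rw [g0]
  · exact (gpos K h x hx).le

theorem gle (K : ι → Set ℂ) (h : Hyp K) (x : ℂ) : g K x ≤ 1 ↔ x ∈ ⋃ i, K i := by
  unfold g
  rw [Finset.inf'_le_iff, mem_iUnion]
  constructor
  · rintro ⟨i, -, hi⟩
    refine ⟨i, ?_⟩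
    have := (gauge_le_one_iff_mem_closure (h.conv i) (h.nhd i)).1 hi
    rwa [(h.cpt i).isClosed.closure_eq] at this
  · rintro ⟨i, hi⟩
    exact ⟨i, Finset.mem_univ i, gauge_le_one_of_mem hi⟩

theorem GF (K : ι → Set ℂ) (h : Hyp K) (x : ℂ) : G K (F K x) = x := by
  rcases eq_or_ne x 0 with rfl | hx
  · simp [F, G]
  · have h1 := gpos K h x hx
    have h2 := norm_pos_iff.2 hx
    unfold G F
    rw [gsmul K _ (div_nonneg h1.le h2.le), norm_smul, Real.norm_of_nonneg (div_nonneg h1.le h2.le),
      smul_smul]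
    have : g K x / ‖x‖ * ‖x‖ / (g K x / ‖x‖ * g K x) * (g K x / ‖x‖) = 1 := by
      field_simp
    rw [this, one_smul]

theorem FG (K : ι → Set ℂ) (h : Hyp K) (x : ℂ) : F K (G K x) = x := by
  rcases eq_or_ne x 0 with rfl | hx
  · simp [F, G]
  · have h1 := gpos K h x hx
    have h2 := norm_pos_iff.2 hx
    unfold G F
    rw [gsmul K _ (div_nonneg h2.le h1.le), norm_smul, Real.norm_of_nonneg (div_nonneg h2.le h1.le),
      smul_smul]
    have : ‖x‖ / g K x * g K x / (‖x‖ / g K x * ‖x‖) * (‖x‖ / g K x) = 1 := by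
      field_simp
    rw [this, one_smul]

theorem Fnorm (K : ι → Set ℂ) (h : Hyp K) (x : ℂ) : ‖F K x‖ = g K x := by
  rcases eq_or_ne x 0 with rfl | hx
  · simp [F, g0]
  · have h1 := gpos K h x hx
    have h2 := norm_pos_iff.2 hx
    unfold F
    rw [norm_smul, Real.norm_of_nonneg (div_nonneg h1.le h2.le)]
    field_simp

theorem Fcont (K : ι → Set ℂ) (h : Hyp K) : Continuous (F K) := by
  rw [continuous_iff_continuousAt]
  intro x
  rcases eq_or_ne x 0 with rfl | hx
  · have : F K 0 = 0 := by simp [F]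
    rw [ContinuousAt, this, tendsto_zero_iff_norm_tendsto_zero]
    simp only [Fnorm K h]
    have := (gcont K h).tendsto 0
    rwa [g0] at this
  · exact (((gcont K h).continuousAt).div continuousAt_id.norm (norm_ne_zero_iff.2 hx)).smul
      continuousAt_id

theorem Gcont (K : ι → Set ℂ) (h : Hyp K) : Continuous (G K) := by
  rw [continuous_iff_continuousAt]
  intro x
  rcases eq_or_ne x 0 with rfl | hx
  · have h0 : G K 0 = 0 := by simp [G]
    obtain ⟨R, hR, h2⟩ := glow K h
    rw [ContinuousAt, h0]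
    apply squeeze_zero_norm (a := fun x => R * ‖x‖)
    · intro y
      rcases eq_or_ne y 0 with rfl | hy
      · simp [G]
      · have h1 := gpos K h y hy
        have h3 := norm_pos_iff.2 hy
        unfold G
        rw [norm_smul, Real.norm_of_nonneg (div_nonneg h3.le h1.le)]
        apply mul_le_mul_of_nonneg_right _ h3.le
        rw [div_le_iff₀ h1]
        have := h2 y
        rw [div_le_iff₀ hR] at this
        linarith
    · have : Filter.Tendsto (fun x : ℂ => R * ‖x‖) (𝓝 0) (𝓝 (R * ‖(0 : ℂ)‖)) :=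
        (continuous_const.mul continuous_norm).tendsto 0
      simpa using this
  · exact (continuousAt_id.norm.div ((gcont K h).continuousAt) (gpos K h x hx).ne').smul
      continuousAt_id

/-- the rescaling homeomorphism -/
noncomputable def hom (K : ι → Set ℂ) (h : Hyp K) : ℂ ≃ₜ ℂ where
  toFun := F K
  invFun := G K
  left_inv := GF K h
  right_inv := FG K h
  continuous_toFun := Fcont K h
  continuous_invFun := Gcont K h

end Pool.Agent.H159.SC.Star

namespace Pool.Agent.H159.SC

open Set Complex Topology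

/-- the star lemma -/
theorem ok_star : S_star := by
  intro ι _ _ K c hc hk hi
  have := Fintype.ofFinite ι
  let L : ι → Set ℂ := fun i => (fun x => x + c) ⁻¹' K i
  have hL : Star.Hyp L := by
    refine ⟨fun i => ?_, fun i => ?_, fun i => ?_⟩
    · exact (hc i).translate_preimage_left c
    · exact (Homeomorph.addRight c).isCompact_preimage.2 (hk i)
    · have h1 : K i ∈ 𝓝 ((0 : ℂ) + c) := by
        rw [zero_add]; exact mem_interior_iff_mem_nhds.1 (hi i)
      exact (continuous_id.add continuous_const).continuousAt.preimage_mem_nhds h1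
  let e : ℂ ≃ₜ ℂ := (Homeomorph.addRight (-c)).trans (Star.hom L hL)
  refine ⟨e.subtype fun x => ?_⟩
  have h1 : e x = Star.F L (x + -c) := rfl
  rw [h1, mem_closedBall_zero_iff, Star.Fnorm L hL, Star.gle L hL]
  simp [L]

end Pool.Agent.H159.SC
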