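import Pool.Agent.H159.SC.Defs

/-!
# MP_ae4adf: the lemma statements (jobs)

Every `def S_...: Prop` is a lemma; a job proves `theorem ok_... : S_...` in its own file
`Pool/Agent/H159/SC/J_....lean` importing this file.
-/

set_option autoImplicit false

namespace Pool.Agent.H159.SC

open Set Complex

/-! ## General tools -/

/-- Star lemma: a finite union of compact convex sets with `c` in their interiors is a disk. -/
def S_star : Prop := ∀ (ι : Type) [Finite ι] [Nonempty ι] (K : ι → Set ℂ) (c : ℂ),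
  (∀ i, Convex ℝ (K i)) → (∀ i, IsCompact (K i)) → (∀ i, c ∈ interior (K i)) →
  IsDisk (⋃ i, K i)

/-- The deformation: a homeomorphism of the plane carrying all unit cells to the deformed cells. -/
def S_phi : Prop := ∀ V H : ℤ → ℤ → ℝ, (∀ i j, |V i j| ≤ 1 / 20) → (∀ i j, |H i j| ≤ 1 / 20) →
  ∃ Φ : ℂ ≃ₜ ℂ, ∀ i j, Φ '' ucell i j = fcell V H i j

/-- Finite unions of unit cells with disjoint index sets have disjoint interiors. -/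
def S_cells : Prop := ∀ C D : Set (ℤ × ℤ), Disjoint C D →
  Disjoint (interior (⋃ x ∈ C, ucell x.1 x.2)) (interior (⋃ x ∈ D, ucell x.1 x.2))

/-! ## The fitting lemma -/

/-- the hypotheses of the fitting lemma -/
structure Til (S : Set (Set ℂ)) (tips : Set ℂ → Set (ℝ × (ℂ ≃ᵢ ℂ))) (𝒯 : Set (Set ℂ)) : Prop where
  fin : S.Finite
  good : ∀ P ∈ S, Good P (tips P)
  tile : ∀ T ∈ 𝒯, IsTile S T
  disj : ∀ T ∈ 𝒯, ∀ T' ∈ 𝒯, T ≠ T' → Disjoint (interior T) (interior T')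
  cov : ⋃₀ 𝒯 = Set.univ

/-- Local finiteness. -/
def S_lf : Prop := ∀ S tips 𝒯, Til S tips 𝒯 → ∀ (v : ℂ) (r : ℝ),
  {T ∈ 𝒯 | (T ∩ Metric.closedBall v r).Nonempty}.Finite

/-- A hole at `v` outside two tiles is filled by a third tile. -/
def S_hole : Prop := ∀ S tips 𝒯, Til S tips 𝒯 → ∀ T₁ ∈ 𝒯, ∀ T₂ ∈ 𝒯, ∀ (v : ℂ) (ρ : ℝ) (W : Set ℂ),
  0 < ρ → IsClosed W → Metric.ball v ρ ⊆ T₁ ∪ T₂ ∪ W →
  (∀ ε > 0, ∃ w ∈ Metric.ball v ε, w ∉ T₁ ∧ w ∉ T₂) →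
  ∃ T ∈ 𝒯, T ≠ T₁ ∧ T ≠ T₂ ∧ v ∈ T ∧ interior T ∩ Metric.ball v ρ ⊆ W

/-- the closed cone at `v` with axis `m` and slope `κ` -/
def cone (κ : ℝ) (m v : ℂ) : Set ℂ := {z | |((z - v) / m).im| ≤ κ * ((z - v) / m).re}

/-- A square with corner `v` does not fit in an acute cone. -/
def S_rscone : Prop := ∀ (T : Set ℂ) (v m : ℂ) (κ ρ : ℝ), RS T v → 0 ≤ κ → κ < 1 → m ≠ 0 → 0 < ρ →
  interior T ∩ Metric.ball v ρ ⊆ cone κ m v → False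

/-- A tip of half-slope `3/4` fits only exactly in the upward cone of slope `3/4`. -/
def S_tipcone : Prop := ∀ (Q : Set ℂ) (s ρ : ℝ) (h : ℂ ≃ᵢ ℂ) (v : ℂ), 0 < s → s ≤ 1 / 20 →
  StdBump Q s → h (-(4 * s : ℝ) * I) = v → 0 < ρ →
  interior (h '' Q) ∩ Metric.ball v ρ ⊆ cone (3 / 4) I v →
  (∀ z, h z = z + (v + (4 * s : ℝ) * I)) ∨ (∀ z, h z = refl0 z + (v + (4 * s : ℝ) * I))

/-- A tip of half-slope `3/4` does not fit in a cone of slope `1/2`. -/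
def S_tipthin : Prop := ∀ (Q : Set ℂ) (s ρ : ℝ) (h : ℂ ≃ᵢ ℂ) (v m : ℂ), 0 < s → s ≤ 1 / 20 →
  StdBump Q s → h (-(4 * s : ℝ) * I) = v → 0 < ρ → m ≠ 0 →
  interior (h '' Q) ∩ Metric.ball v ρ ⊆ cone (1 / 2) m v → False

/-- Squares are preserved by isometries. -/
def S_rsiso : Prop := ∀ (P : Set ℂ) (z : ℂ) (g : ℂ ≃ᵢ ℂ), RS P z → RS (g '' P) (g z)

/-- Fitting lemma: a dent of size `s` of a tile is filled by a bump of the same size. -/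
def S_fit : Prop := ∀ S tips 𝒯, Til S tips 𝒯 → ∀ T ∈ 𝒯, ∀ s : ℝ, 0 < s → s ≤ 1 / 20 →
  StdDent T s → ∃ P ∈ S, ∃ τ ∈ tips P, τ.1 = s ∧
    (τ.2 '' P ∈ 𝒯 ∨ refl0 '' (τ.2 '' P) ∈ 𝒯)

/-- Fitting lemma in an arbitrary frame. -/
def S_fitf : Prop := ∀ S tips 𝒯, Til S tips 𝒯 → ∀ T ∈ 𝒯, ∀ s : ℝ, 0 < s → s ≤ 1 / 20 →
  ∀ φ : ℂ ≃ᵢ ℂ, StdDent (φ '' T) s → ∃ P ∈ S, ∃ τ ∈ tips P, τ.1 = s ∧
    (φ.symm '' (τ.2 '' P) ∈ 𝒯 ∨ φ.symm '' (refl0 '' (τ.2 '' P)) ∈ 𝒯)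

/-! ## Frames -/

/-- an isometry of the plane from explicit mutually inverse maps -/
def isoOf (f g : ℂ → ℂ) (h₁ : ∀ z, g (f z) = z) (h₂ : ∀ z, f (g z) = z)
    (hd : ∀ z w, dist (f z) (f w) = dist z w) : ℂ ≃ᵢ ℂ where
  toFun := f
  invFun := g
  left_inv := h₁
  right_inv := h₂
  isometry_toFun := Isometry.of_dist_eq hd

/-- translation -/
noncomputable def tr (w : ℂ) : ℂ ≃ᵢ ℂ := isoOf (fun z => z + w) (fun z => z - w) (fun z => by ring)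
  (fun z => by ring) (fun z w' => by simp [dist_eq_norm])

/-- half turn `z ↦ w - z` -/
noncomputable def ht (w : ℂ) : ℂ ≃ᵢ ℂ := isoOf (fun z => w - z) (fun z => w - z) (fun z => by ring)
  (fun z => by ring) (fun z w' => by
    rw [dist_eq_norm, dist_eq_norm, ← norm_neg]; congr 1; ring)

/-- quarter turn `z ↦ -I (z - w)` -/
noncomputable def qt (w : ℂ) : ℂ ≃ᵢ ℂ := isoOf (fun z => -I * (z - w)) (fun z => I * z + w)
  (fun z => by linear_combination (-(z - w)) * I_mul_I)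
  (fun z => by linear_combination (-z) * I_mul_I)
  (fun z w' => by
    rw [dist_eq_norm, dist_eq_norm]
    rw [show -I * (z - w) - -I * (w' - w) = -I * (z - w') by ring, norm_mul, norm_neg, norm_I,
      one_mul])

/-- the tips of a bar -/
def barTips (N : ℕ) (s e : ℝ) : Set (ℝ × (ℂ ≃ᵢ ℂ)) :=
  {τ | (∃ i : ℕ, i < 2 * N + 1 ∧ i ≠ N ∧ τ = (s, ht (i + 1 / 2 + I))) ∨
    (∃ i : ℕ, i < 2 * N + 1 ∧ i ≠ N ∧ τ = (s, tr (-(i + 1 / 2)))) ∨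
    τ = (e, qt ((2 * N + 1 : ℕ) + I / 2))}

/-! ## The bars and the filler -/

/-- symmetry of the bar in its horizontal middle line -/
def S_barsym : Prop := ∀ (N : ℕ) (s t e : ℝ) (z : ℂ), z ∈ bar N s t e ↔
  (starRingEnd ℂ z + I) ∈ bar N s t e

/-- compactness and interior of bars -/
def S_barcpt : Prop := ∀ (N : ℕ) (s t e : ℝ), 1 ≤ N → 0 < s → s ≤ 1 / 20 → 0 < t → t ≤ 1 / 20 →
  0 < e → e ≤ 1 / 20 → IsCompact (bar N s t e) ∧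
  Metric.ball ((N + 1 / 2 : ℝ) + I / 2) (1 / 4) ⊆ bar N s t e

/-- bumps of bars -/
def S_barbump : Prop := ∀ (N : ℕ) (s t e : ℝ), 1 ≤ N → 0 < s → s ≤ 1 / 20 → 0 < t → t ≤ 1 / 20 →
  0 < e → e ≤ 1 / 20 →
  (∀ i : ℕ, i < 2 * N + 1 → i ≠ N → StdBump (ht (i + 1 / 2 + I) '' bar N s t e) s) ∧
  (∀ i : ℕ, i < 2 * N + 1 → i ≠ N → StdBump (tr (-(i + 1 / 2)) '' bar N s t e) s) ∧
  StdBump (qt ((2 * N + 1 : ℕ) + I / 2) '' bar N s t e) e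

/-- dents of bars: left end and upper key -/
def S_bardent : Prop := ∀ (N : ℕ) (s t e : ℝ), 1 ≤ N → 0 < s → s ≤ 1 / 20 → 0 < t → t ≤ 1 / 20 →
  0 < e → e ≤ 1 / 20 →
  StdDent (qt (I / 2) '' bar N s t e) e ∧
  StdDent (tr (-(N + 1 / 2 + 2 * I)) '' bar N s t e) t

/-- every point of a bar is the corner of a square in the bar or a tip -/
def S_barlsp : Prop := ∀ (N : ℕ) (s t e : ℝ), 1 ≤ N → 0 < s → s ≤ 1 / 20 → 0 < t → t ≤ 1 / 20 →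
  0 < e → e ≤ 1 / 20 → ∀ z ∈ bar N s t e, RS (bar N s t e) z ∨
    ∃ τ ∈ barTips N s e, τ.2 z = -(4 * τ.1 : ℝ) * I

/-- the filler -/
def S_filler : Prop := ∀ p q : ℝ, 0 < p → p ≤ 1 / 20 → 0 < q → q ≤ 1 / 20 →
  Good (filler p q) ∅ ∧ StdDent (ht (1 / 2) '' filler p q) p

/-- the bar as a union of deformed cells -/
def S_barcells : Prop := ∀ (N : ℕ) (s t e : ℝ) (V H : ℤ → ℤ → ℝ), 1 ≤ N → 0 < s → s ≤ 1 / 20 →
  0 < t → t ≤ 1 / 20 → 0 < e → e ≤ 1 / 20 →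
  V 0 0 = e → V (2 * N + 1) 0 = e → (∀ i : ℤ, 0 < i → i < 2 * N + 1 → V i 0 = 0) →
  V N 1 = 0 → V (N + 1) 1 = 0 → V N (-1) = 0 → V (N + 1) (-1) = 0 →
  (∀ i : ℤ, 0 ≤ i → i < 2 * N + 1 → i ≠ N → H i 1 = s ∧ H i 0 = -s) →
  H N 1 = 0 → H N 0 = 0 → H N 2 = -t → H N (-1) = t →
  (⋃ x ∈ {x : ℤ × ℤ | (x.2 = 0 ∧ 0 ≤ x.1 ∧ x.1 < 2 * N + 1) ∨
      (x.1 = N ∧ (x.2 = 1 ∨ x.2 = -1))}, fcell V H x.1 x.2) = bar N s t e

/-! ## The region -/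

/-- length of the first bar -/
abbrev la (N : ℕ) : ℤ := 2 * N + 1
/-- length of the second bar -/
abbrev lb (N : ℕ) : ℤ := 2 * N + 3

/-- left end of level `± t` of the region -/
def lo (N : ℕ) (c r t : ℤ) : ℤ :=
  if t % 4 = 0 then (c - r + t / 4) * la N
  else if t % 4 = 3 then (c - r + t / 4) * lb N + N + 1
  else (c - r + t / 4) * lb N

/-- right end of level `± t` of the region -/
def hi (N : ℕ) (c r t : ℤ) : ℤ :=
  if t % 4 = 0 then (c + r - t / 4 + 1) * la N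
  else if t % 4 = 1 then (c + r - t / 4) * lb N + N + 1
  else if t % 4 = 2 then (c + r - t / 4) * lb N
  else (c + r - t / 4) * la N

/-- the cells of the region -/
def Reg (N : ℕ) (c r : ℤ) : Set (ℤ × ℤ) :=
  {x | |x.2| ≤ 4 * r ∧ lo N c r |x.2| ≤ x.1 ∧ x.1 < hi N c r |x.2|} ∪
    {x | x.1 = c * la N + N ∧ (x.2 = 4 * r + 1 ∨ x.2 = -(4 * r + 1))}

/-- names of tiles -/
inductive Idx : Type
  | X (j m : ℤ) : Idx
  | Y (j m : ℤ) : Idx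
  | F (i j : ℤ) : Idx

/-- the cells of a tile -/
def Idx.cells (N : ℕ) : Idx → Set (ℤ × ℤ)
  | .X j m => {x | (x.2 = 4 * m ∧ j * la N ≤ x.1 ∧ x.1 < (j + 1) * la N) ∨
      (x.1 = j * la N + N ∧ (x.2 = 4 * m + 1 ∨ x.2 = 4 * m - 1))}
  | .Y j m => {x | (x.2 = 4 * m + 2 ∧ j * lb N ≤ x.1 ∧ x.1 < (j + 1) * lb N) ∨
      (x.1 = j * lb N + (N + 1) ∧ (x.2 = 4 * m + 3 ∨ x.2 = 4 * m + 1))}
  | .F i j => {x | x.1 = i ∧ x.2 = j}

/-- the tiles of the patch -/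
def Pat (N : ℕ) (c r : ℤ) : Set Idx := {x | match x with
  | .X j m => |m| ≤ r ∧ c - r + |m| ≤ j ∧ j ≤ c + r - |m|
  | .Y j m => -r ≤ m ∧ m < r ∧ (0 ≤ m → c - r + m ≤ j ∧ j < c + r - m) ∧
      (m < 0 → c - r - m - 1 ≤ j ∧ j < c + r + m + 1)
  | .F i j => (i, j) ∈ Reg N c r ∧ j % 2 = 1 ∧ i % la N ≠ N ∧ i % lb N ≠ N + 1}

/-- the standing assumptions on the parameters -/
structure Par (N : ℕ) (c r : ℤ) : Prop where
  r0 : 0 ≤ r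
  rc : r + 1 ≤ c
  N2 : 2 * (c + r + 1) ≤ N

def S_regunion : Prop := ∀ (N : ℕ) (c r : ℤ), Par N c r → (⋃ x ∈ Pat N c r, x.cells N) = Reg N c r

def S_regdisj : Prop := ∀ (N : ℕ) (c r : ℤ), Par N c r → ∀ x ∈ Pat N c r, ∀ y ∈ Pat N c r, x ≠ y →
  Disjoint (x.cells N) (y.cells N)

def S_regfin : Prop := ∀ (N : ℕ) (c r : ℤ), Par N c r → (Pat N c r).Finite

def S_regmono : Prop := ∀ (N : ℕ) (c r : ℤ), Par N c (r + 1) → 0 ≤ r → Pat N c r ⊆ Pat N c (r + 1)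

/-- the union of the cells of the region as a union of rectangles -/
def S_boxes : Prop := ∀ (N : ℕ) (c r : ℤ), Par N c r →
  (⋃ x ∈ Reg N c r, ucell x.1 x.2) =
    (⋃ t ∈ {t : ℤ | 0 ≤ t ∧ t ≤ 4 * r}, {z : ℂ | (lo N c r t : ℝ) ≤ z.re ∧ z.re ≤ hi N c r t ∧
      -(t : ℝ) ≤ z.im ∧ z.im ≤ t + 1}) ∪
    {z : ℂ | ((c * la N + N : ℤ) : ℝ) ≤ z.re ∧ z.re ≤ (c * la N + N : ℤ) + 1 ∧
      -(4 * r + 1 : ℝ) ≤ z.im ∧ z.im ≤ 4 * r + 2}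

/-- bounds for the rectangles -/
def S_lohi : Prop := ∀ (N : ℕ) (c r t : ℤ), Par N c r → 0 ≤ t → t ≤ 4 * r →
  lo N c r t ≤ c * la N ∧ (c + 1) * la N ≤ hi N c r t ∧
  (Par N c (r + 1) → lo N c (r + 1) (t + 1) < lo N c r t ∧ hi N c r t < hi N c (r + 1) (t + 1))

/-! ## The pattern -/

/-- displacements of the vertical edges -/
noncomputable def VV (N : ℕ) (i j : ℤ) : ℝ :=
  if j % 4 = 0 then (if i % la N = 0 then 3 / 80 else 0)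
  else if j % 4 = 2 then (if i % lb N = 0 then 4 / 80 else 0)
  else 0

/-- displacements of the horizontal edges -/
noncomputable def HH (N : ℕ) (i j : ℤ) : ℝ :=
  if j % 4 = 0 then (if i % la N = N then 0 else -(1 / 80))
  else if j % 4 = 1 then (if i % la N = N then 0 else 1 / 80)
  else if j % 4 = 2 then (if i % lb N = N + 1 then 0 else -(2 / 80))
  else (if i % lb N = N + 1 then 0 else 2 / 80)

def S_patX : Prop := S_barcells → ∀ (N : ℕ) (j m : ℤ), 1 ≤ N → 0 ≤ j → 2 * j < N →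
  (⋃ x ∈ (Idx.X j m).cells N, fcell (VV N) (HH N) x.1 x.2) =
    tr ((j * la N : ℤ) + (4 * m : ℤ) * I) '' BX N

def S_patY : Prop := S_barcells → ∀ (N : ℕ) (j m : ℤ), 1 ≤ N → 0 ≤ j → 2 * j < N →
  (⋃ x ∈ (Idx.Y j m).cells N, fcell (VV N) (HH N) x.1 x.2) =
    tr ((j * lb N : ℤ) + (4 * m + 2 : ℤ) * I) '' BY N

def S_patF : Prop := ∀ (N : ℕ) (i j : ℤ), 1 ≤ N → j % 2 = 1 → i % la N ≠ N → i % lb N ≠ N + 1 →
  (j % 4 = 1 → fcell (VV N) (HH N) i j = tr (i + j * I) '' FF) ∧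
  (j % 4 = 3 → fcell (VV N) (HH N) i j = ht (i + 1 + (j + 1) * I) '' FF)

end Pool.Agent.H159.SC
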